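import Pool.Agent.Lib.MP_65c801_co.Final
import Pool.Agent.Lib.MP_65c801_co.Comb

/-! A power saving for cutting pseudo-circles: `n` Jordan curves in the plane, every two of which
meet at most twice and cross at each common point, can be cut by `O(n^{3/2 - 10^{-7}})` points into
arcs every two of which meet at most once. -/

namespace Pool.Agent.Lib.MP_65c801_co.Old.PseudoCircles

theorem result : ∃ C : ℝ, ∀ (n : ℕ) (γ : Fin n → Circle → ℂ), (∀ i, Continuous (γ i)) →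
    (∀ i, Function.Injective (γ i)) →
    (∀ i j, i ≠ j → (Set.range (γ i) ∩ Set.range (γ j)).encard ≤ 2) →
    (∀ i j, i ≠ j → ∀ p ∈ Set.range (γ i) ∩ Set.range (γ j), ∀ U ∈ nhds p,
      ∃ a ∈ U ∩ (Set.range (γ j) \ Set.range (γ i)), ∃ b ∈ U ∩ (Set.range (γ j) \ Set.range (γ i)),
        b ∉ connectedComponentIn (Set.range (γ i))ᶜ a) →
    ∃ X : Finset ℂ, (X.card : ℝ) ≤ C * (n : ℝ) ^ ((3 : ℝ) / 2 - 1 / 10 ^ 7) ∧
      (∀ x ∈ X, ∃ i, x ∈ Set.range (γ i)) ∧ (∀ i, ∃ x ∈ X, x ∈ Set.range (γ i)) ∧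
      ∀ i j p q, (i ≠ j ∨ connectedComponentIn (Set.range (γ i) \ ↑X) p ≠
          connectedComponentIn (Set.range (γ j) \ ↑X) q) →
        (connectedComponentIn (Set.range (γ i) \ ↑X) p ∩
          connectedComponentIn (Set.range (γ j) \ ↑X) q).Subsingleton := by
  obtain ⟨C, -, h⟩ := Pool.Agent.Lib.MP_65c801_co.geo_of_comb Pool.Agent.Lib.MP_65c801_co.combCut
  refine ⟨C, fun n γ h1 h2 h3 h4 => ?_⟩
  obtain ⟨X, x1, x2, x3, x4⟩ := h n γ h1 h2 h3 h4
  refine ⟨X, x1, x2, x3, fun i j p q c => ?_⟩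
  by_cases e : i = j
  · subst e
    rintro x ⟨a, b⟩
    exact absurd ((connectedComponentIn_eq a).trans (connectedComponentIn_eq b).symm)
      (c.resolve_left fun d => d rfl)
  · exact x4 i j e p q

end Pool.Agent.Lib.MP_65c801_co.Old.PseudoCircles
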